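import Mathlib

set_option autoImplicit false

namespace Pool.Agent.Results.MP_ec2b5b_lc.Gap

open Finset

/-- `r` is the payment of a utility-maximizing option of the type `(v, c)` facing the menu `M`. -/
def Opt (M : Finset (ℝ × ℝ)) (v c r : ℝ) : Prop :=
  (r = 0 ∧ ∀ o ∈ M, v * o.1 - o.2 ≤ c) ∨
    ∃ o ∈ M, r = o.2 ∧ c ≤ v * o.1 - o.2 ∧ ∀ o' ∈ M, v * o'.1 - o'.2 ≤ v * o.1 - o.2

/-- The payment collected, ties being broken in the seller's favour. -/
noncomputable def pay (M : Finset (ℝ × ℝ)) (v c : ℝ) : ℝ := sSup {r | Opt M v c r}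

/-- `(a, q)` is a probability distribution on `[0, ∞)` with atoms `a i` of mass `q i`. -/
def Dist {m : ℕ} (a q : Fin m → ℝ) : Prop := (∀ i, 0 ≤ a i) ∧ (∀ i, 0 ≤ q i) ∧ ∑ i, q i = 1

section Aux

lemma pay_ge {M : Finset (ℝ × ℝ)} {v c r : ℝ} (h : Opt M v c r) : r ≤ pay M v c := by
  refine le_csSup (((M.finite_toSet.image Prod.snd).insert 0).subset ?_).bddAbove h
  rintro s (a | ⟨o, a, rfl, -⟩)
  exacts [Or.inl a.1, Or.inr ⟨o, a, rfl⟩]

lemma geo (P : ℝ) (hP : 0 ≤ P) (m : ℕ) :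
    ∑ i ∈ range m, (if P ≤ 4 * 2 ^ i then P / (2 * 2 ^ i) else 0) ≤ 4 - min 4 (P / 2 ^ m) := by
  induction m with
  | zero => simp
  | succ m ih =>
    have p : (0 : ℝ) < 2 ^ m := by positivity
    rw [sum_range_succ]
    split_ifs with h
    · rw [min_eq_right (by rwa [div_le_iff₀ p])] at ih
      have : P / 2 ^ m = 2 * (P / (2 * 2 ^ m)) := by field_simp
      rw [pow_succ, mul_comm _ (2 : ℝ)]
      linarith [min_le_right 4 (P / (2 * 2 ^ m))]
    · rw [min_eq_left (by rw [le_div_iff₀ p]; linarith)] at ih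
      linarith [min_le_left 4 (P / 2 ^ (m + 1))]

lemma ic (i j : ℕ) : (2 * 2 ^ i : ℝ) ^ 2 * (1 - 1 / (2 * 2 ^ j)) - 2 * 2 ^ j
    ≤ (2 * 2 ^ i) ^ 2 * (1 - 1 / (2 * 2 ^ i)) - 2 * 2 ^ i := by
  have pj : (0 : ℝ) < 2 * 2 ^ j := by positivity
  have pi : (0 : ℝ) < 2 * 2 ^ i := by positivity
  generalize (2 * 2 ^ j : ℝ) = y at *
  generalize (2 * 2 ^ i : ℝ) = x at *
  have : x ^ 2 * (1 - 1 / x) - x - (x ^ 2 * (1 - 1 / y) - y) = (x - y) ^ 2 / y := by field_simp; ring
  have : 0 ≤ (x - y) ^ 2 / y := by positivity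
  linarith

end Aux

/-- Posted pricing is not a constant-factor approximation of the optimal revenue. -/
theorem result (C : ℝ) : ∃ (m : ℕ) (v q c g : Fin m → ℝ) (M : Finset (ℝ × ℝ)) (B : ℝ),
    Dist v q ∧ Dist c g ∧ (∀ o ∈ M, 0 ≤ o.1 ∧ o.1 ≤ 1) ∧
    (∀ P, 0 ≤ P → P * ∑ i, ∑ j, (if c j ≤ v i - P then q i * g j else 0) ≤ B) ∧
    0 < B ∧ C * B < ∑ i, ∑ j, q i * g j * pay M (v i) (c j) := by
  obtain ⟨n, hn⟩ := exists_nat_gt (5 * C)
  obtain ⟨m, hm⟩ : ∃ m, m = n + 1 := ⟨_, rfl⟩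
  have m0 : (1 : ℝ) ≤ m := by rw [hm]; simp
  have : Nonempty (Fin m) := ⟨⟨0, by omega⟩⟩
  obtain ⟨K, hK⟩ : ∃ K : ℝ, K = m ^ 2 * (2 * 2 ^ m) := ⟨_, rfl⟩
  have K1 : 1 ≤ K := by
    rw [hK]
    exact one_le_mul_of_one_le_of_one_le (one_le_pow₀ m0) (by linarith [one_le_pow₀ (n := m) (one_le_two (α := ℝ))])
  obtain ⟨t, ht⟩ : ∃ t : Fin m → ℝ, ∀ i, t i = 2 * 2 ^ i.val := ⟨_, fun _ => rfl⟩
  have t2 : ∀ i, 2 ≤ t i := fun i => by rw [ht]; linarith [one_le_pow₀ (n := i.val) (one_le_two (α := ℝ))]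
  have t0 : ∀ i, 0 < t i := fun i => by linarith [t2 i]
  obtain ⟨U, hU⟩ : ∃ U, U = ∑ i : Fin m, (t i * K ^ i.val)⁻¹ := ⟨_, rfl⟩
  obtain ⟨W, hW⟩ : ∃ W, W = ∑ i : Fin m, K ^ i.val := ⟨_, rfl⟩
  have U0 : 0 < U := hU ▸ sum_pos (fun i _ => by have := t0 i; positivity) univ_nonempty
  have W0 : 0 < W := hW ▸ sum_pos (fun i _ => by positivity) univ_nonempty
  have eu : ∀ i, t i ^ 2 * (1 - 1 / t i) - t i = t i ^ 2 - 2 * t i := fun i => by
    have := t0 i; field_simp; ring
  refine ⟨m, fun i => t i ^ 2, fun i => (t i * K ^ i.val)⁻¹ / U, fun i => t i ^ 2 - 2 * t i,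
    fun i => K ^ i.val / W, univ.image fun i => (1 - 1 / t i, t i), 5 / (U * W),
    ⟨fun i => by positivity, fun i => by have := t0 i; positivity, ?_⟩,
    ⟨fun i => by nlinarith [t2 i], fun i => by positivity, ?_⟩, ?_, fun P hP => ?_, by positivity, ?_⟩
  · rw [← sum_div, ← hU, div_self U0.ne']
  · rw [← sum_div, ← hW, div_self W0.ne']
  · simp only [mem_image, mem_univ, true_and]
    rintro _ ⟨i, rfl⟩
    have := t0 i
    refine ⟨?_, by simp [this.le]⟩
    simp only [sub_nonneg, div_le_one this]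
    linarith [t2 i]
  · have key : ∀ i j : Fin m, P * (if t j ^ 2 - 2 * t j ≤ t i ^ 2 - P then
        (t i * K ^ i.val)⁻¹ / U * (K ^ j.val / W) else 0) ≤ ((if j = i then
          (if P ≤ 4 * 2 ^ i.val then P / (2 * 2 ^ i.val) else 0) else 0) + 1 / m ^ 2) / (U * W) := by
      intro i j
      have ti := t0 i
      by_cases h : t j ^ 2 - 2 * t j ≤ t i ^ 2 - P
      swap
      · rw [if_neg h, mul_zero]; split_ifs <;> positivity
      rw [if_pos h, show P * ((t i * K ^ i.val)⁻¹ / U * (K ^ j.val / W))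
        = P / t i * (K ^ j.val / K ^ i.val) / (U * W) by field_simp]
      gcongr
      rcases lt_trichotomy j i with a | rfl | a
      · rw [if_neg a.ne, zero_add]
        have e1 : P / t i ≤ 2 * 2 ^ m := by
          rw [div_le_iff₀ ti]
          have : t i ≤ 2 * 2 ^ m := by rw [ht]; gcongr; exacts [one_le_two, i.2.le]
          nlinarith [t2 j]
        have e2 : K ^ j.val / K ^ i.val ≤ 1 / K := by
          rw [div_le_div_iff₀ (by positivity) (by positivity), one_mul, ← pow_succ]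
          exact pow_le_pow_right₀ K1 a
        refine (mul_le_mul e1 e2 (by positivity) (by positivity)).trans_eq ?_
        rw [hK]; field_simp
      · rw [if_pos rfl, if_pos (by rw [ht] at h; linarith), div_self (by positivity), mul_one, ht]
        exact le_add_of_nonneg_right (by positivity)
      · rw [if_neg a.ne', zero_add]
        have : 2 * t i ≤ t j := by
          rw [ht, ht, mul_left_comm, ← pow_succ']; gcongr; exacts [one_le_two, a]
        have : P = 0 := by nlinarith [t2 i]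
        rw [this]; simp
    simp only [mul_sum]
    refine (sum_le_sum fun i _ => sum_le_sum fun j _ => key i j).trans ?_
    simp only [← sum_div]
    gcongr
    simp only [sum_add_distrib, sum_ite_eq', mem_univ, if_true, sum_const, card_univ,
      Fintype.card_fin, nsmul_eq_mul]
    rw [Fin.sum_univ_eq_sum_range fun i => if P ≤ 4 * 2 ^ i then P / (2 * 2 ^ i) else 0]
    have := geo P hP m
    have e : (m : ℝ) * (m * (1 / m ^ 2)) = 1 := by field_simp
    have : 0 ≤ min 4 (P / 2 ^ m) := by positivity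
    linarith
  · have p0 : ∀ a b, 0 ≤ pay (univ.image fun i => (1 - 1 / t i, t i)) a b := fun a b =>
      Real.sSup_nonneg (by
        rintro r (h | ⟨o, h, rfl, -⟩)
        · exact h.1.ge
        · obtain ⟨i, -, rfl⟩ := mem_image.1 h
          exact (t0 i).le)
    calc C * (5 / (U * W)) < ∑ _i : Fin m, 1 / (U * W) := by
          simp only [sum_const, card_univ, Fintype.card_fin, nsmul_eq_mul, ← mul_div_assoc]
          refine div_lt_div_of_pos_right ?_ (by positivity)
          rw [hm]; push_cast; linarith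
      _ ≤ _ := by
          refine sum_le_sum fun i _ => le_trans ?_ (single_le_sum (fun j _ =>
            mul_nonneg (by have := t0 i; positivity) (p0 _ _)) (mem_univ i))
          have := pay_ge (M := univ.image fun i => (1 - 1 / t i, t i)) (v := t i ^ 2)
            (c := t i ^ 2 - 2 * t i) (Or.inr ⟨_, mem_image_of_mem _ (mem_univ i), rfl, (eu i).ge, by
              simp only [mem_image, mem_univ, true_and]
              rintro _ ⟨j, rfl⟩
              simpa only [ht] using ic i j⟩)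
          refine le_trans (le_of_eq ?_) (mul_le_mul_of_nonneg_left this (by have := t0 i; positivity))
          have := t0 i
          field_simp

end Pool.Agent.Results.MP_ec2b5b_lc.Gap
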